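import Pool.Agent.H9.Fair

set_option autoImplicit false

namespace Pool.Agent.Results.MP_a41a76_co.Counter

open Pool.Agent.H9.Fair Finset

theorem val_cast {m : ℕ} (u : Fin m → ℕ) (S T : Finset (Fin m)) :
    worth (fun g => (u g : ℝ)) S ≤ worth (fun g => (u g : ℝ)) T ↔ ∑ g ∈ S, u g ≤ ∑ g ∈ T, u g := by
  unfold worth
  simp only [← Nat.cast_sum, Nat.cast_le]

def u0 : Fin 13 → ℕ := ![6, 12, 9, 9, 12, 12, 12, 9, 9, 9, 10, 10, 10]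
def u1 : Fin 13 → ℕ := ![1, 1, 1, 1, 9, 9, 9, 9, 1, 1, 1, 1, 1]
def u2 : Fin 13 → ℕ := ![1, 1, 1, 1, 1, 1, 1, 1, 9, 9, 9, 9, 9]
def A : Fin 13 → Fin 3 := ![0, 0, 0, 0, 1, 1, 1, 1, 2, 2, 2, 2, 2]
def B : Fin 13 → Fin 3 := ![0, 1, 2, 2, 1, 1, 1, 2, 2, 2, 0, 0, 0]

set_option synthInstance.maxSize 2000 in
theorem key : ∀ b4 : Fin 3, b4 ≠ 0 → ∀ b5 : Fin 3, b5 ≠ 0 → ∀ b6 : Fin 3, b6 ≠ 0 →
    ∀ b7 : Fin 3, b7 ≠ 0 → ∀ b8 : Fin 3, b8 ≠ 0 → ∀ b9 : Fin 3, b9 ≠ 0 → ∀ b10 : Fin 3, b10 ≠ 0 →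
    ∀ b11 : Fin 3, b11 ≠ 0 → ∀ b12 : Fin 3, b12 ≠ 0 → ∃ j : Fin 3, j ≠ 0 ∧
      36 < ∑ g ∈ bundle ![0, 0, 0, 0, b4, b5, b6, b7, b8, b9, b10, b11, b12] j, u0 g ∧
      ∀ g, 36 < ∑ g ∈ (bundle ![0, 0, 0, 0, b4, b5, b6, b7, b8, b9, b10, b11, b12] j).erase g,
        u0 g := by decide +kernel

theorem result : ∃ (n m : ℕ) (v : Fin n → Fin m → ℝ) (A : Fin m → Fin n),
    (∀ i g, 0 < v i g) ∧ (∀ i, MXS (v i) A i) ∧ ∃ i, ¬ EEF1 (v i) A i := by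
  refine ⟨3, 13, fun i g => (![u0, u1, u2] i g : ℕ), A, fun i g => ?_, fun i => ?_, 0, ?_⟩
  · have : ∀ i g, 0 < ![u0, u1, u2] i g := by decide +kernel
    exact Nat.cast_pos.2 (this i g)
  · refine ⟨![B, A, A] i, fun j hj g hg h => (val_cast _ _ _).2 ?_, (val_cast _ _ _).2 ?_⟩
    · clear h; revert i j g; decide +kernel
    · revert i; decide +kernel
  · rintro ⟨C, h1, h2⟩
    have e : ∀ g, C g = 0 ↔ A g = 0 := fun g => by
      have := Finset.ext_iff.1 h1 g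
      simpa [bundle] using this
    have n0 : ∀ g, A g ≠ 0 → C g ≠ 0 := fun g h h' => h ((e g).1 h')
    have hC : C = ![0, 0, 0, 0, C 4, C 5, C 6, C 7, C 8, C 9, C 10, C 11, C 12] := by
      funext g
      fin_cases g <;> first | rfl | exact (e _).2 rfl
    obtain ⟨j, hj, k1, k2⟩ := key _ (n0 4 (by decide)) _ (n0 5 (by decide)) _ (n0 6 (by decide))
      _ (n0 7 (by decide)) _ (n0 8 (by decide)) _ (n0 9 (by decide)) _ (n0 10 (by decide))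
      _ (n0 11 (by decide)) _ (n0 12 (by decide))
    rw [← hC] at k1 k2
    have e36 : ∑ g ∈ bundle A 0, u0 g = 36 := by decide +kernel
    rcases h2 j hj with h | ⟨g, -, h⟩
    · rw [h1] at h
      exact absurd (((val_cast u0 _ _).1 h).trans e36.le) (not_le.2 k1)
    · rw [h1] at h
      exact absurd (((val_cast u0 _ _).1 h).trans e36.le) (not_le.2 (k2 g))

end Pool.Agent.Results.MP_a41a76_co.Counter
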